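import Mathlib
import Pool.Agent.Helper669.VFinal

set_option autoImplicit false

/-!
# A forcing notion adding a colouring of `μ⁺ × μ⁺⁺` in which every set of `μ` columns has few
constant rows
-/

namespace Pool.Agent.W931.Neg

open Cardinal Pool.Agent.Helper669.Forcing Pool.Agent.Helper669.K Pool.Agent.Helper669.U
  Pool.Agent.Helper669.V
open Pool.Agent.Helper669.KDelta (rec_choice weak_delta small_iUnion small_mono)

/-- A condition: a partial colouring of `A × y` (given by the set `c` of the points of colour `1`)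
and a set `F` of at most `μ` subsets of `y` of size at least `μ`. -/
structure NC (μ : Cardinal.{0}) (K M : Type) where
  A : Set K
  y : Set M
  c : Set (K × M)
  F : Set (Set M)
  hA : #A ≤ μ
  hy : #y ≤ μ
  hF : #F ≤ μ
  hFs : ∀ S ∈ F, S ⊆ y ∧ μ ≤ #S
  hc : ∀ t ∈ c, t.1 ∈ A ∧ t.2 ∈ y

section

variable {μ : Cardinal.{0}} {K M : Type}

/-- A stronger condition extends the partial colouring, and is not constant in any of the new rows
on any of the sets of the weaker one. -/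
instance : Preorder (NC μ K M) where
  le q p := p.A ⊆ q.A ∧ p.y ⊆ q.y ∧ p.F ⊆ q.F ∧
    (∀ x ∈ p.A, ∀ m ∈ p.y, (x, m) ∈ q.c ↔ (x, m) ∈ p.c) ∧
    ∀ x ∈ q.A, x ∉ p.A → ∀ S ∈ p.F, (∃ m ∈ S, (x, m) ∈ q.c) ∧ ∃ m ∈ S, (x, m) ∉ q.c
  le_refl p := ⟨subset_rfl, subset_rfl, subset_rfl, fun _ _ _ _ => Iff.rfl,
    fun x h h' => absurd h h'⟩
  le_trans r q p h h' := by
    refine ⟨h'.1.trans h.1, h'.2.1.trans h.2.1, h'.2.2.1.trans h.2.2.1, ?_, ?_⟩
    · intro x hx m hm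
      exact (h.2.2.2.1 x (h'.1 hx) m (h'.2.1 hm)).trans (h'.2.2.2.1 x hx m hm)
    · intro x hx hxp S hS
      by_cases hxq : x ∈ q.A
      · obtain ⟨⟨m, hm, h1⟩, m', hm', h2⟩ := h'.2.2.2.2 x hxq hxp S hS
        refine ⟨⟨m, hm, ?_⟩, m', hm', ?_⟩
        · exact (h.2.2.2.1 x hxq m (h'.2.1 ((p.hFs S hS).1 hm))).2 h1
        · exact fun h3 => h2 ((h.2.2.2.1 x hxq m' (h'.2.1 ((p.hFs S hS).1 hm'))).1 h3)
      · exact h.2.2.2.2 x hx hxq S (h'.2.2.1 hS)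

theorem le_def {q p : NC μ K M} : q ≤ p ↔ (p.A ⊆ q.A ∧ p.y ⊆ q.y ∧ p.F ⊆ q.F ∧
    (∀ x ∈ p.A, ∀ m ∈ p.y, (x, m) ∈ q.c ↔ (x, m) ∈ p.c) ∧
    ∀ x ∈ q.A, x ∉ p.A → ∀ S ∈ p.F, (∃ m ∈ S, (x, m) ∈ q.c) ∧ ∃ m ∈ S, (x, m) ∉ q.c) := Iff.rfl

theorem small_biUnion' {α β : Type} (hμ : ℵ₀ ≤ μ) {D : Set α} (hD : #D ≤ μ) (f : α → Set β)
    (hf : ∀ a, #(f a) ≤ μ) : #(⋃ a ∈ D, f a) ≤ μ :=
  Pool.Agent.Helper669.KDelta.small_biUnion hμ D hD f (fun a _ => hf a)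

theorem dirClosed (hμ : ℵ₀ ≤ μ) : DirClosed (Order.succ μ) (NC μ K M) := by
  intro D hD hne hdir
  rw [Order.lt_succ_iff] at hD
  have key : ∀ a ∈ D, ∀ b ∈ D, ∀ x ∈ a.A, ∀ m ∈ a.y, (x, m) ∈ b.c → (x, m) ∈ a.c := by
    intro a ha b hb x hx m hm h
    obtain ⟨d, hd, hda, hdb⟩ := hdir a ha b hb
    have h1 := b.hc _ h
    exact (hda.2.2.2.1 x hx m hm).1 ((hdb.2.2.2.1 x h1.1 m h1.2).2 h)
  refine ⟨⟨⋃ a ∈ D, a.A, ⋃ a ∈ D, a.y, ⋃ a ∈ D, a.c, ⋃ a ∈ D, a.F,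
    small_biUnion' hμ hD _ fun a => a.hA, small_biUnion' hμ hD _ fun a => a.hy,
    small_biUnion' hμ hD _ fun a => a.hF, ?_, ?_⟩, ?_⟩
  · intro S hS
    simp only [Set.mem_iUnion] at hS
    obtain ⟨a, ha, hS⟩ := hS
    exact ⟨(a.hFs S hS).1.trans (Set.subset_biUnion_of_mem (u := fun a => a.y) ha), (a.hFs S hS).2⟩
  · intro t ht
    simp only [Set.mem_iUnion] at ht
    obtain ⟨a, ha, ht⟩ := ht
    exact ⟨Set.mem_biUnion ha (a.hc t ht).1, Set.mem_biUnion ha (a.hc t ht).2⟩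
  · intro a ha
    refine ⟨Set.subset_biUnion_of_mem (u := fun a => a.A) ha,
      Set.subset_biUnion_of_mem (u := fun a => a.y) ha,
      Set.subset_biUnion_of_mem (u := fun a => a.F) ha, ?_, ?_⟩
    · intro x hx m hm
      constructor
      · intro h
        simp only [Set.mem_iUnion] at h
        obtain ⟨b, hb, h⟩ := h
        exact key a ha b hb x hx m hm h
      · intro h
        exact Set.mem_biUnion ha h
    · intro x hx hxa S hS
      simp only [Set.mem_iUnion] at hx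
      obtain ⟨b, hb, hx⟩ := hx
      obtain ⟨d, hd, hda, hdb⟩ := hdir a ha b hb
      obtain ⟨⟨m, hm, h1⟩, m', hm', h2⟩ := hda.2.2.2.2 x (hdb.1 hx) hxa S hS
      refine ⟨⟨m, hm, Set.mem_biUnion hd h1⟩, m', hm', ?_⟩
      intro h
      simp only [Set.mem_iUnion] at h
      obtain ⟨e, he, h⟩ := h
      exact h2 (key d hd e he x (hdb.1 hx) m' (hda.2.1 ((a.hFs S hS).1 hm')) h)

/-- injective choice -/
theorem inj_choice {I : Type} (hμ : ℵ₀ ≤ μ) (hI : #I ≤ μ) (S : I → Set M)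
    (hS : ∀ i, μ ≤ #(S i)) : ∃ g : I → M, Function.Injective g ∧ ∀ i, g i ∈ S i := by
  classical
  rcases isEmpty_or_nonempty I with hE | ⟨⟨i0⟩⟩
  · exact ⟨fun i => (hE.false i).elim, fun i => (hE.false i).elim, fun i => (hE.false i).elim⟩
  have hne : Nonempty M := by
    have h1 : #(S i0) ≠ 0 := (lt_of_lt_of_le (aleph0_pos.trans_le hμ) (hS i0)).ne'
    obtain ⟨⟨m, _⟩⟩ := Cardinal.mk_ne_zero_iff.1 h1
    exact ⟨m⟩
  have hle : #I ≤ #(μ.ord.ToType) := by rw [mk_ord_toType]; exact hI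
  obtain ⟨e⟩ := hle
  obtain ⟨f, hf⟩ := rec_choice (ι := μ.ord.ToType) (β := M) (r := (· < ·)) wellFounded_lt
    (fun w f b => ∀ i, e i = w → b ∈ S i ∧ ∀ j, j < w → f j ≠ b)
    (by
      intro w f g b hfg h i hi
      refine ⟨(h i hi).1, fun j hj => ?_⟩
      rw [← hfg j hj]
      exact (h i hi).2 j hj)
    (by
      intro w f _
      by_cases hw : ∃ i, e i = w
      · obtain ⟨i, hi⟩ := hw
        have h1 : ∃ b ∈ S i, b ∉ f '' Set.Iio w := by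
          by_contra hcon
          push Not at hcon
          have h2 : #(S i) ≤ #(f '' Set.Iio w) := Cardinal.mk_le_mk_of_subset hcon
          have h3 : #(Set.Iio w) < μ := Cardinal.mk_Iio_toType_ord_lt w
          exact absurd (((hS i).trans h2).trans Cardinal.mk_image_le) (not_le.2 h3)
        obtain ⟨b, hb, hb'⟩ := h1
        refine ⟨b, fun i' hi' => ?_⟩
        have h4 : i' = i := e.injective (hi'.trans hi.symm)
        subst h4
        exact ⟨hb, fun j hj h5 => hb' ⟨j, hj, h5⟩⟩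
      · exact ⟨Classical.arbitrary M, fun i hi => absurd ⟨i, hi⟩ hw⟩)
  refine ⟨fun i => f (e i), ?_, fun i => (hf (e i) i rfl).1⟩
  intro i i' h
  by_contra hne'
  have h1 : e i ≠ e i' := fun h2 => hne' (e.injective h2)
  rcases lt_or_gt_of_ne h1 with h2 | h2
  · exact (hf (e i') i' rfl).2 _ h2 h
  · exact (hf (e i) i rfl).2 _ h2 h.symm

/-- a set splitting few large sets -/
theorem exists_split (hμ : ℵ₀ ≤ μ) (F : Set (Set M)) (hF : #F ≤ μ) (hS : ∀ S ∈ F, μ ≤ #S) :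
    ∃ T : Set M, ∀ S ∈ F, (∃ m ∈ S, m ∈ T) ∧ ∃ m ∈ S, m ∉ T := by
  obtain ⟨g, hg, hg'⟩ := inj_choice (M := M) hμ (I := F × Bool) (by
    rw [Cardinal.mk_prod, Cardinal.lift_id, Cardinal.lift_id]
    calc #F * #Bool ≤ μ * μ := mul_le_mul' hF (by
          refine le_trans ?_ hμ
          exact (Cardinal.mk_lt_aleph0).le)
      _ = μ := Cardinal.mul_eq_self hμ) (fun i => i.1.1) (fun i => hS i.1.1 i.1.2)
  refine ⟨{m | ∃ S : F, g (S, true) = m}, fun S hS => ⟨⟨g (⟨S, hS⟩, true), hg' (⟨S, hS⟩, true), ⟨S, hS⟩, rfl⟩,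
    g (⟨S, hS⟩, false), hg' (⟨S, hS⟩, false), ?_⟩⟩
  rintro ⟨S', h⟩
  have h1 := hg h
  simp at h1

/-- a new row -/
theorem ext_row (hμ : ℵ₀ ≤ μ) (p : NC μ K M) (x : K) : ∃ q ≤ p, x ∈ q.A := by
  classical
  by_cases hx : x ∈ p.A
  · exact ⟨p, le_rfl, hx⟩
  obtain ⟨T, hT⟩ := exists_split hμ p.F p.hF (fun S hS => (p.hFs S hS).2)
  refine ⟨⟨insert x p.A, p.y, p.c ∪ {t | t.1 = x ∧ t.2 ∈ T ∧ t.2 ∈ p.y}, p.F, ?_, p.hy, p.hF,
    p.hFs, ?_⟩, ⟨Set.subset_insert _ _, subset_rfl, subset_rfl, ?_, ?_⟩, Set.mem_insert _ _⟩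
  · refine (Cardinal.mk_insert_le).trans ?_
    exact Cardinal.add_le_of_le hμ p.hA (one_lt_aleph0.le.trans hμ)
  · rintro t (ht | ⟨h1, h2, h3⟩)
    · exact ⟨Or.inr (p.hc t ht).1, (p.hc t ht).2⟩
    · exact ⟨Or.inl h1, h3⟩
  · intro x' hx' m hm
    constructor
    · rintro (h | ⟨h1, _⟩)
      · exact h
      · have h2 : x' = x := h1
        subst h2
        exact absurd hx' hx
    · exact fun h => Or.inl h
  · intro x' hx' hxp S hS
    have h1 : x' = x := by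
      rcases hx' with h | h
      · exact h
      · exact absurd h hxp
    subst h1
    obtain ⟨⟨m, hm, h1⟩, m', hm', h2⟩ := hT S hS
    refine ⟨⟨m, hm, Or.inr ⟨rfl, h1, (p.hFs S hS).1 hm⟩⟩, m', hm', ?_⟩
    rintro (h | ⟨-, h3, -⟩)
    · exact hxp (p.hc _ h).1
    · exact h2 h3

/-- new columns and a new set -/
theorem ext_set (hμ : ℵ₀ ≤ μ) (p : NC μ K M) (S : Set M) (hS : #S = μ) : ∃ q ≤ p, S ∈ q.F := by
  refine ⟨⟨p.A, p.y ∪ S, p.c, insert S p.F, p.hA, ?_, ?_, ?_, ?_⟩, ⟨subset_rfl,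
    Set.subset_union_left, Set.subset_insert _ _, fun _ _ _ _ => Iff.rfl,
    fun x h h' => absurd h h'⟩, Set.mem_insert _ _⟩
  · refine (Cardinal.mk_union_le _ _).trans ?_
    exact Cardinal.add_le_of_le hμ p.hy hS.le
  · refine (Cardinal.mk_insert_le).trans ?_
    exact Cardinal.add_le_of_le hμ p.hF (one_lt_aleph0.le.trans hμ)
  · rintro S' (rfl | h)
    · exact ⟨Set.subset_union_right, hS.ge⟩
    · exact ⟨(p.hFs S' h).1.trans Set.subset_union_left, (p.hFs S' h).2⟩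
  · intro t ht
    exact ⟨(p.hc t ht).1, Or.inl (p.hc t ht).2⟩

/-- Pigeonhole principle. -/
theorem pigeon {E C : Type} {χ : Cardinal.{0}} (hχ : ℵ₀ ≤ χ) (T : Set E) (hT : ¬ #T ≤ χ)
    (f : E → C) (hC : #C ≤ χ) : ∃ (T' : Set E) (z : C), T' ⊆ T ∧ (¬ #T' ≤ χ) ∧ ∀ e ∈ T', f e = z := by
  by_contra hcon
  push Not at hcon
  apply hT
  have h1 : ∀ z : C, #({e | e ∈ T ∧ f e = z} : Set E) ≤ χ := by
    intro z
    by_contra h
    obtain ⟨e, he, hne⟩ := hcon {e | e ∈ T ∧ f e = z} z (fun e he => he.1) (not_le.1 h)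
    exact hne he.2
  refine small_mono (t := ⋃ z : C, {e | e ∈ T ∧ f e = z}) ?_ (small_iUnion hχ hC _ h1)
  intro e he
  exact Set.mem_iUnion.2 ⟨f e, he, rfl⟩

theorem cc (hμ : ℵ₀ ≤ μ) {χ : Cardinal.{0}} (hχμ : μ < χ) (h2 : 2 ^ μ ≤ χ) (hpow : χ ^ μ ≤ χ)
    (hK : #K ≤ χ) (ι : Type) (f : ι → NC μ K M) (hι : Order.succ χ ≤ #ι) :
    ∃ i j, i ≠ j ∧ ∃ r, r ≤ f i ∧ r ≤ f j := by
  classical
  have hχ : ℵ₀ ≤ χ := hμ.trans hχμ.le
  have hT0 : ¬ #(Set.univ : Set ι) ≤ χ := by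
    rw [Cardinal.mk_univ, not_le]
    exact Order.succ_le_iff.1 hι
  -- the same rows
  obtain ⟨T1, A, -, hT1, hA⟩ := pigeon hχ Set.univ hT0
    (fun i => (⟨(f i).A, (f i).hA⟩ : {A : Set K // #A ≤ μ}))
    ((Cardinal.mk_bounded_set_le K μ).trans
      ((Cardinal.power_le_power_right (max_le hK hχ)).trans hpow))
  -- a weak delta system
  obtain ⟨T2, R, hT2, hR, hTR⟩ := weak_delta (E := T1) hχ hT1 (fun i => (f i.1).y)
    (fun i => (f i.1).hy.trans_lt hχμ)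
  -- the same trace
  obtain ⟨T3, Y, hT32, hT3, hY⟩ := pigeon hχ T2 hT2
    (fun i => (⟨(f i.1).y ∩ R, Set.inter_subset_right,
      (Cardinal.mk_le_mk_of_subset Set.inter_subset_left).trans (f i.1).hy⟩ :
      {t : Set M // t ⊆ R ∧ #t ≤ μ}))
    (by
      refine (Cardinal.mk_bounded_subset_le R μ).trans ?_
      exact (Cardinal.power_le_power_right (max_le hR hχ)).trans hpow)
  -- the same colouring
  obtain ⟨T4, c, hT43, hT4, hc⟩ := pigeon hχ T3 hT3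
    (fun i => (⟨{t | t ∈ (f i.1).c ∧ t.1 ∈ A.1 ∧ t.2 ∈ Y.1}, fun t ht => ⟨ht.2.1, ht.2.2⟩⟩ :
      {c : Set (K × M) // c ⊆ A.1 ×ˢ Y.1}))
    (by
      have h3 : #{c : Set (K × M) // c ⊆ A.1 ×ˢ Y.1} = 2 ^ #(A.1 ×ˢ Y.1 : Set (K × M)) :=
        Cardinal.mk_powerset _
      rw [h3]
      refine le_trans (Cardinal.power_le_power_left two_ne_zero ?_) h2
      rw [Cardinal.mk_setProd]
      calc #A.1 * #Y.1 ≤ μ * μ := mul_le_mul' A.2 Y.2.2
        _ = μ := Cardinal.mul_eq_self hμ)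
  have hT4' : 1 < #T4 := (one_lt_aleph0.trans_le hχ).trans (not_le.1 hT4)
  rw [Cardinal.one_lt_iff_nontrivial] at hT4'
  obtain ⟨⟨i, hi⟩, ⟨j, hj⟩, hij⟩ := hT4'
  have hij' : i ≠ j := fun h => hij (Subtype.ext h)
  have hiA : (f i.1).A = A.1 := congrArg Subtype.val (hA i.1 i.2)
  have hjA : (f j.1).A = A.1 := congrArg Subtype.val (hA j.1 j.2)
  have hiY : (f i.1).y ∩ R = Y.1 := congrArg Subtype.val (hY i (hT43 hi))
  have hjY : (f j.1).y ∩ R = Y.1 := congrArg Subtype.val (hY j (hT43 hj))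
  have hic : {t | t ∈ (f i.1).c ∧ t.1 ∈ A.1 ∧ t.2 ∈ Y.1} = c.1 := congrArg Subtype.val (hc i hi)
  have hjc : {t | t ∈ (f j.1).c ∧ t.1 ∈ A.1 ∧ t.2 ∈ Y.1} = c.1 := congrArg Subtype.val (hc j hj)
  have hsub : (f i.1).y ∩ (f j.1).y ⊆ R := hTR i (hT32 (hT43 hi)) j (hT32 (hT43 hj)) hij'
  have hAA : (f j.1).A = (f i.1).A := hjA.trans hiA.symm
  have e1 : ∀ t : K × M, t.2 ∈ (f i.1).y → t ∈ (f j.1).c → t ∈ (f i.1).c := by
    intro t h1 h2
    have h3 := (f j.1).hc t h2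
    have h4 : t.2 ∈ R := hsub ⟨h1, h3.2⟩
    have h5 : t.2 ∈ Y.1 := by rw [← hiY]; exact ⟨h1, h4⟩
    have h6 : t ∈ c.1 := by
      rw [← hjc]
      refine ⟨h2, ?_, h5⟩
      rw [← hjA]; exact h3.1
    rw [← hic] at h6
    exact h6.1
  have e2 : ∀ t : K × M, t.2 ∈ (f j.1).y → t ∈ (f i.1).c → t ∈ (f j.1).c := by
    intro t h1 h2
    have h3 := (f i.1).hc t h2
    have h4 : t.2 ∈ R := hsub ⟨h3.2, h1⟩
    have h5 : t.2 ∈ Y.1 := by rw [← hjY]; exact ⟨h1, h4⟩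
    have h6 : t ∈ c.1 := by
      rw [← hic]
      refine ⟨h2, ?_, h5⟩
      rw [← hiA]; exact h3.1
    rw [← hjc] at h6
    exact h6.1
  refine ⟨i.1, j.1, fun h => hij' (Subtype.ext h), ⟨(f i.1).A, (f i.1).y ∪ (f j.1).y,
    (f i.1).c ∪ (f j.1).c, (f i.1).F ∪ (f j.1).F, (f i.1).hA, ?_, ?_, ?_, ?_⟩, ?_, ?_⟩
  · refine (Cardinal.mk_union_le _ _).trans ?_
    exact Cardinal.add_le_of_le hμ (f i.1).hy (f j.1).hy
  · refine (Cardinal.mk_union_le _ _).trans ?_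
    exact Cardinal.add_le_of_le hμ (f i.1).hF (f j.1).hF
  · rintro S (h | h)
    · exact ⟨((f i.1).hFs S h).1.trans Set.subset_union_left, ((f i.1).hFs S h).2⟩
    · exact ⟨((f j.1).hFs S h).1.trans Set.subset_union_right, ((f j.1).hFs S h).2⟩
  · rintro t (h | h)
    · exact ⟨((f i.1).hc t h).1, Or.inl ((f i.1).hc t h).2⟩
    · refine ⟨?_, Or.inr ((f j.1).hc t h).2⟩
      rw [← hAA]
      exact ((f j.1).hc t h).1
  · refine ⟨subset_rfl, Set.subset_union_left, Set.subset_union_left, ?_,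
      fun x h h' => absurd h h'⟩
    intro x hx m hm
    refine ⟨?_, fun h => Or.inl h⟩
    rintro (h | h)
    · exact h
    · exact e1 _ hm h
  · refine ⟨hAA.subset, Set.subset_union_right, Set.subset_union_right, ?_, ?_⟩
    · intro x hx m hm
      refine ⟨?_, fun h => Or.inr h⟩
      rintro (h | h)
      · exact e2 _ hm h
      · exact h
    · intro x h h'
      exfalso
      apply h'
      rw [hAA]
      exact h

theorem mk_le (hμ : ℵ₀ ≤ μ) {θ : Cardinal.{0}} (hμθ : μ ≤ θ) (hpow : θ ^ μ ≤ θ) (hK : #K ≤ θ)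
    (hM : #M ≤ θ) : #(NC μ K M) ≤ θ := by
  classical
  have hθ : ℵ₀ ≤ θ := hμ.trans hμθ
  have hb : ∀ (X : Type), #X ≤ θ → #{s : Set X // #s ≤ μ} ≤ θ := by
    intro X hX
    exact (Cardinal.mk_bounded_set_le X μ).trans
      ((Cardinal.power_le_power_right (max_le hX hθ)).trans hpow)
  have hKM : #(K × M) ≤ θ := by
    rw [Cardinal.mk_prod, Cardinal.lift_id, Cardinal.lift_id]
    calc #K * #M ≤ θ * θ := mul_le_mul' hK hM
      _ = θ := Cardinal.mul_eq_self hθ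
  have h1 := hb K hK
  have h2 := hb M hM
  have h3 := hb (K × M) hKM
  have h4 := hb _ h2
  have hmul : ∀ (X Y : Type), #X ≤ θ → #Y ≤ θ → #(X × Y) ≤ θ := by
    intro X Y hX hY
    rw [Cardinal.mk_prod, Cardinal.lift_id, Cardinal.lift_id]
    calc #X * #Y ≤ θ * θ := mul_le_mul' hX hY
      _ = θ := Cardinal.mul_eq_self hθ
  refine le_trans ?_ (hmul _ _ (hmul _ _ h1 h2) (hmul _ _ h3 h4))
  have hcs : ∀ p : NC μ K M, #p.c ≤ μ := by
    intro p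
    have h5 : p.c ⊆ p.A ×ˢ p.y := fun t ht => p.hc t ht
    refine (Cardinal.mk_le_mk_of_subset h5).trans ?_
    rw [Cardinal.mk_setProd]
    calc #p.A * #p.y ≤ μ * μ := mul_le_mul' p.hA p.hy
      _ = μ := Cardinal.mul_eq_self hμ
  have hFs : ∀ p : NC μ K M, #((Subtype.val : {s : Set M // #s ≤ μ} → Set M) ⁻¹' p.F) ≤ μ := by
    intro p
    refine le_trans ?_ p.hF
    exact Cardinal.mk_preimage_of_injective _ _ Subtype.val_injective
  refine Cardinal.mk_le_of_injective (f := fun p : NC μ K M =>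
    (((⟨p.A, p.hA⟩ : {s : Set K // #s ≤ μ}), (⟨p.y, p.hy⟩ : {s : Set M // #s ≤ μ})),
      ((⟨p.c, hcs p⟩ : {s : Set (K × M) // #s ≤ μ}),
        (⟨_, hFs p⟩ : {s : Set {s : Set M // #s ≤ μ} // #s ≤ μ})))) ?_
  intro p q h
  simp only [Prod.mk.injEq, Subtype.mk.injEq] at h
  obtain ⟨⟨hA, hy⟩, hc, hF⟩ := h
  have hF' : p.F = q.F := by
    ext S
    constructor
    · intro hS
      have h5 : (⟨S, (Cardinal.mk_le_mk_of_subset (p.hFs S hS).1).trans p.hy⟩ :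
          {s : Set M // #s ≤ μ}) ∈ ((Subtype.val : {s : Set M // #s ≤ μ} → Set M) ⁻¹' p.F) := hS
      rw [hF] at h5
      exact h5
    · intro hS
      have h5 : (⟨S, (Cardinal.mk_le_mk_of_subset (q.hFs S hS).1).trans q.hy⟩ :
          {s : Set M // #s ≤ μ}) ∈ ((Subtype.val : {s : Set M // #s ≤ μ} → Set M) ⁻¹' q.F) := hS
      rw [← hF] at h5
      exact h5
  cases p
  cases q
  simp only at hA hy hc hF'
  subst hA hy hc hF'
  rfl

end

end Pool.Agent.W931.Neg
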