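import Mathlib
import Pool.Agent.W931.Neg

set_option autoImplicit false

/-!
# The failure of the polarized relation in a forcing extension with GCH
-/

namespace Pool.Agent.W931.Neg

open Cardinal Pool.Agent.Helper669.Forcing Pool.Agent.Helper669.K Pool.Agent.Helper669.U
  Pool.Agent.Helper669.V

section

variable {μ : Cardinal.{0}} {K M : Type}

theorem meets_of_fimp {Q : Type} [Preorder Q] {φ N : Set Q} {p : Q} (hφ : Down φ)
    (h : p ∈ fimp φ (meets N)) (h' : p ∈ φ) : p ∈ meets N := by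
  intro q hq
  obtain ⟨r, hr, hr'⟩ := mem_fimp.1 h q hq (hφ _ h' _ hq)
  obtain ⟨r1, hr1, s, hs, hrs⟩ := hr' r le_rfl
  exact ⟨r1, hr1.trans hr, s, hs, hrs⟩

/-- In the extension the relation fails for the generic colouring. -/
theorem not_polarized (hμ : ℵ₀ ≤ μ) (hK : μ < #K) (W : Type) (hW : #W = μ) (p : NC μ K M) :
    p ∈ fnot (PolarizedRel (NC μ K M) K M W) := by
  classical
  intro q hq hmem
  obtain ⟨q1, hq1, A, hA⟩ := mem_fex.1
    (hmem (fun x m => ({p | (x, m) ∈ p.c} : Set (NC μ K M)))) q le_rfl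
  obtain ⟨q2, hq2, B, hAf, hB, hh⟩ := mem_fex.1 hA q1 le_rfl
  obtain ⟨q3, hq3, R, hR1, hR2, hR3⟩ := mem_fex.1 hB q2 le_rfl
  -- decide the range of `R`
  obtain ⟨q4, hq4, hD⟩ := exists_forall_mem (hμ.trans (Order.le_succ μ)) (dirClosed hμ)
    (N := W) (by rw [hW]; exact Order.lt_succ μ)
    (fun w => {r : NC μ K M | (∃ m, r ∈ meets (R w m)) ∨ ∀ r' ≤ r, ¬ r' ≤ q3})
    (by
      intro w r hr r' hr'
      rcases hr with ⟨m, hm⟩ | hr
      · exact Or.inl ⟨m, down_meets _ _ hm _ hr'⟩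
      · exact Or.inr fun r'' h'' => hr r'' (h''.trans hr'))
    (by
      intro w r
      by_cases h : ∃ r' ≤ r, r' ≤ q3
      · obtain ⟨r', hr', hr3⟩ := h
        obtain ⟨r'', hr'', m, hm⟩ := IsFun.total (down_IsFun R _ hR1 _ hr3) w
        exact ⟨r'', hr''.trans hr', Or.inl ⟨m, hm⟩⟩
      · refine ⟨r, le_rfl, Or.inr fun r' hr' h3 => h ⟨r', hr', h3⟩⟩) q3
  have hD' : ∀ w, ∃ m, q4 ∈ meets (R w m) := by
    intro w
    rcases hD w with h | h
    · exact h
    · exact absurd hq4 (h q4 le_rfl)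
  choose m hm using hD'
  have hinj : Function.Injective m := by
    intro w w' h
    have h1 : q4 ∈ IsInj R := down_IsInj R _ hR2 _ hq4
    refine IsInj.eq h1 (hm w) ?_
    rw [h]
    exact hm w'
  have hS : #(Set.range m) = μ := by
    rw [Cardinal.mk_range_eq m hinj, hW]
  obtain ⟨q5, hq5, hS5⟩ := ext_set hμ q4 (Set.range m) hS
  -- a new row
  have hex : ∃ q6 ≤ q5, ∃ x, x ∉ q5.A ∧ q6 ∈ meets (A x) := by
    by_contra hcon
    push Not at hcon
    have hle : #q5.A ≤ #(μ.out) := by rw [Cardinal.mk_out]; exact q5.hA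
    obtain ⟨e⟩ := hle
    have hKne : Nonempty K := by
      rw [← Cardinal.mk_ne_zero_iff]
      exact (aleph0_pos.trans (hμ.trans_lt hK)).ne'
    let g : μ.out → K := fun x => if h : ∃ y : q5.A, e y = x then (h.choose : K)
      else Classical.arbitrary K
    have hg : ∀ y ∈ q5.A, ∃ x, g x = y := by
      intro y hy
      refine ⟨e ⟨y, hy⟩, ?_⟩
      have h1 : ∃ y' : q5.A, e y' = e ⟨y, hy⟩ := ⟨⟨y, hy⟩, rfl⟩
      simp only [g, dif_pos h1]
      exact congrArg Subtype.val (e.injective h1.choose_spec)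
    have h5 : q5 ∈ fnot _ := down_fnot _ _ (hAf μ hK) q5 (hq5.trans (hq4.trans hq3))
    refine h5 q5 le_rfl ?_
    refine mem_fex_of_mem (fun x y => {_q : NC μ K M | y = g x}) ?_ ⟨⟨?_, ?_⟩, ?_⟩
    · exact down_fand (down_IsFun _) (down_fall fun _ => down_fimp _ _)
    · intro x
      exact mem_fex_of_mem (g x) (down_meets _) (meets_of_mem rfl)
    · intro x y y'
      rw [mem_fimp]
      rintro r _ ⟨h1, h2⟩
      obtain ⟨_, _, _, e1, _⟩ := h1 r le_rfl
      obtain ⟨_, _, _, e2, _⟩ := h2 r le_rfl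
      have e1' : y = g x := e1
      have e2' : y' = g x := e2
      exact ⟨r, le_rfl, e1'.trans e2'.symm⟩
    · intro y
      rw [mem_fimp]
      intro r hr hry
      by_cases hy : y ∈ q5.A
      · obtain ⟨x, hx⟩ := hg y hy
        exact ⟨r, le_rfl, mem_fex_of_mem x (down_meets _) (meets_of_mem hx.symm)⟩
      · exact absurd hry (hcon r hr y hy)
  obtain ⟨q6, hq6, x, hx5, hx6⟩ := hex
  obtain ⟨q7, hq7, hx7⟩ := ext_row hμ q6 x
  have h75 : q7 ≤ q5 := hq7.trans hq6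
  have h74 : q7 ≤ q4 := h75.trans hq5
  obtain ⟨⟨m1, ⟨w1, hw1⟩, hm1⟩, m0, ⟨w0, hw0⟩, hm0⟩ := h75.2.2.2.2 x hx7 hx5 _ hS5
  have hBm : ∀ w, q7 ∈ meets (B (m w)) := by
    intro w
    have h1 := (hR3 (m w)).2 w
    have h2 := down_fimp _ _ _ h1 q7 (h74.trans hq4)
    exact meets_of_fimp (down_meets _) h2 (down_meets _ _ (hm w) _ h74)
  have hAx : q7 ∈ meets (A x) := down_meets _ _ hx6 _ hq7
  have hh7 := down_fnot _ _ hh q7 ((h74.trans hq4).trans hq3)
  have hcase : (∃ r ≤ q7, r ∈ (fall fun x => fall fun y => fimp (fand (meets (A x)) (meets (B y)))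
      (meets ({p | (x, y) ∈ p.c} : Set (NC μ K M))))) ∨
      (∃ r ≤ q7, r ∈ (fall fun x => fall fun y => fimp (fand (meets (A x)) (meets (B y)))
      (fnot (meets ({p | (x, y) ∈ p.c} : Set (NC μ K M)))))) := by
    by_contra hcon
    push Not at hcon
    exact hh7 q7 le_rfl ⟨hcon.1, hcon.2⟩
  rcases hcase with ⟨r, hr, h⟩ | ⟨r, hr, h⟩
  · have h1 := h x m0
    obtain ⟨r1, hr1, h2⟩ := mem_fimp.1 h1 r le_rfl
      ⟨down_meets _ _ hAx _ hr, by rw [← hw0]; exact down_meets _ _ (hBm w0) _ hr⟩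
    obtain ⟨r2, hr2, s, hs, hrs⟩ := h2 r1 le_rfl
    have hs' : (x, m0) ∈ s.c := hs
    have h3 := s.hc _ hs'
    have h4 : (x, m0) ∈ r2.c := (hrs.2.2.2.1 x h3.1 m0 h3.2).2 hs'
    have h5 : r2 ≤ q7 := (hr2.trans hr1).trans hr
    have h6 : m0 ∈ q7.y := h75.2.1 ((q5.hFs _ hS5).1 ⟨w0, hw0⟩)
    exact hm0 ((h5.2.2.2.1 x hx7 m0 h6).1 h4)
  · have h1 := h x m1
    obtain ⟨r1, hr1, h2⟩ := mem_fimp.1 h1 r le_rfl
      ⟨down_meets _ _ hAx _ hr, by rw [← hw1]; exact down_meets _ _ (hBm w1) _ hr⟩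
    exact h2 r1 le_rfl (meets_of_le (s := q7) hm1 (hr1.trans hr))

/-- Cardinals are preserved. -/
theorem cardinalsPreserved {Q : Type} [Preorder Q] {μ χ : Cardinal.{0}} (hμ : ℵ₀ ≤ μ)
    (hχ : χ = Order.succ μ) (hcl : DirClosed (Order.succ μ) Q)
    (hcc : ∀ (ι : Type) (f : ι → Q), Order.succ χ ≤ #ι → ∃ i j, i ≠ j ∧ ∃ r, r ≤ f i ∧ r ≤ f j)
    (q : Q) : q ∈ CardinalsPreserved.{0, 0} Q := by
  intro μ' ν hμν hν q1 hq1 hex
  obtain ⟨q2, hq2, R, hfun, honto⟩ := mem_fex.1 hex q1 le_rfl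
  rcases le_or_gt μ' μ with hle | hlt
  · obtain ⟨q4, hq4, hD⟩ := exists_forall_mem (hμ.trans (Order.le_succ μ)) hcl
      (N := μ'.out) (by rw [Cardinal.mk_out]; exact hle.trans_lt (Order.lt_succ μ))
      (fun w => {r : Q | (∃ m, r ∈ meets (R w m)) ∨ ∀ r' ≤ r, ¬ r' ≤ q2})
      (by
        intro w r hr r' hr'
        rcases hr with ⟨m, hm⟩ | hr
        · exact Or.inl ⟨m, down_meets _ _ hm _ hr'⟩
        · exact Or.inr fun r'' h'' => hr r'' (h''.trans hr'))
      (by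
        intro w r
        by_cases h : ∃ r' ≤ r, r' ≤ q2
        · obtain ⟨r', hr', hr3⟩ := h
          obtain ⟨r'', hr'', m, hm⟩ := IsFun.total (down_IsFun R _ hfun _ hr3) w
          exact ⟨r'', hr''.trans hr', Or.inl ⟨m, hm⟩⟩
        · refine ⟨r, le_rfl, Or.inr fun r' hr' h3 => h ⟨r', hr', h3⟩⟩) q2
    have hD' : ∀ w, ∃ m, q4 ∈ meets (R w m) := by
      intro w
      rcases hD w with h | h
      · exact h
      · exact absurd hq4 (h q4 le_rfl)
    choose m hm using hD'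
    have hns : ∃ y, y ∉ Set.range m := by
      by_contra hcon
      push Not at hcon
      have h1 : Function.Surjective m := fun y => hcon y
      have h2 := Cardinal.mk_le_of_surjective h1
      rw [Cardinal.mk_out, Cardinal.mk_out] at h2
      exact absurd h2 (not_le.2 hμν)
    obtain ⟨y, hy⟩ := hns
    obtain ⟨r, hr, x, hx⟩ := mem_fex.1 (honto y) q4 hq4
    apply hy
    refine ⟨x, ?_⟩
    exact IsFun.unique (down_IsFun R _ hfun _ (hr.trans hq4)) (down_meets _ _ (hm x) _ hr) hx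
  · have hχμ' : χ ≤ μ' := by rw [hχ]; exact Order.succ_le_of_lt hlt
    have hχ0 : ℵ₀ ≤ χ := by rw [hχ]; exact hμ.trans (Order.le_succ μ)
    let V : μ'.out → Set ν.out := fun x => {y | ∃ r ≤ q2, r ∈ meets (R x y)}
    have hV : ∀ x, #(V x) ≤ χ := by
      intro x
      by_contra hc
      rw [not_le] at hc
      have hch : ∀ y : V x, ∃ r ≤ q2, r ∈ meets (R x y.1) := fun y => y.2
      choose f hf1 hf2 using hch
      obtain ⟨i, j, hij, r, hri, hrj⟩ := hcc (V x) f (Order.succ_le_of_lt hc)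
      apply hij
      apply Subtype.ext
      have hr : r ∈ IsFun R := down_IsFun R _ hfun r (hri.trans (hf1 i))
      exact IsFun.unique hr (down_meets _ _ (hf2 i) r hri) (down_meets _ _ (hf2 j) r hrj)
    have hU : (⋃ x, V x) = Set.univ := by
      rw [Set.eq_univ_iff_forall]
      intro y
      obtain ⟨r, hr, x, h⟩ := mem_fex.1 (honto y) q2 le_rfl
      exact Set.mem_iUnion.2 ⟨x, r, hr, h⟩
    have h1 : ν ≤ μ' * χ := by
      calc ν = #(ν.out) := (Cardinal.mk_out ν).symm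
        _ = #(Set.univ : Set ν.out) := Cardinal.mk_univ.symm
        _ = #(⋃ x, V x) := by rw [hU]
        _ ≤ Cardinal.sum fun x => #(V x) := Cardinal.mk_iUnion_le_sum_mk
        _ ≤ Cardinal.sum fun _ : μ'.out => χ := Cardinal.sum_le_sum _ _ hV
        _ = μ' * χ := by rw [Cardinal.sum_const', Cardinal.mk_out]
    exact absurd h1 (not_le.2 (Cardinal.mul_lt_of_lt hν.le hμν (hχμ'.trans_lt hμν)))

theorem pow_succ_le (hGCH : ∀ ν : Cardinal.{0}, ℵ₀ ≤ ν → 2 ^ ν = Order.succ ν) {μ ν : Cardinal.{0}}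
    (hμ : ℵ₀ ≤ μ) (h : μ ≤ ν) : (Order.succ ν) ^ μ ≤ Order.succ ν := by
  rw [← hGCH ν (hμ.trans h), ← Cardinal.power_mul, Cardinal.mul_eq_left (hμ.trans h) h
    (lt_of_lt_of_le aleph0_pos hμ).ne']

theorem forcesGCH {Q : Type} [Preorder Q] {μ : Cardinal.{0}} (hμ : ℵ₀ ≤ μ)
    (hGCH : ∀ ν : Cardinal.{0}, ℵ₀ ≤ ν → 2 ^ ν = Order.succ ν)
    (hcl : DirClosed (Order.succ μ) Q)
    (hcc : ∀ (ι : Type) (f : ι → Q), Order.succ (Order.succ μ) ≤ #ι →
      ∃ i j, i ≠ j ∧ ∃ r, r ≤ f i ∧ r ≤ f j)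
    (hQ : #Q ≤ Order.succ (Order.succ μ)) (q : Q) : q ∈ ForcesGCH Q := by
  intro ν hν
  refine mem_fex_of_mem (Order.succ ν) (down_fand (down_fex _) (gch_down_coll _ _)) ⟨?_, ?_⟩
  · rcases le_or_gt ν μ with h | h
    · exact powOnto_of_dirClosed (hμ.trans (Order.le_succ μ)) hcl (h.trans_lt (Order.lt_succ μ))
        (hGCH ν hν).le q
    · have h1 : Order.succ μ ≤ ν := Order.succ_le_of_lt h
      obtain ⟨F, hF⟩ := exists_nice_enum (Q := Q) (χ := Order.succ (Order.succ μ)) (ν := ν)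
        (μ := Order.succ ν) hcc (by
          rw [← hGCH ν hν]
          refine card_nice' hν ?_ (Order.succ_le_succ h1)
          rw [hGCH ν hν]
          exact hQ.trans (Order.succ_le_succ h1)) (Order.succ_ne_bot ν)
      exact powOnto_of_enum hF q
  · exact gch_ground _ _ (fun ρ hρ => Order.lt_succ_iff.1 hρ) q

/-- For every infinite cardinal `μ` (under GCH): a forcing notion which preserves cardinals and
GCH and forces the failure of the polarized relation for `μ⁺ × μ⁺⁺` and sets of sizes `μ⁺`, `μ`. -/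
theorem neg_main (hGCH : ∀ ν : Cardinal.{0}, ℵ₀ ≤ ν → 2 ^ ν = Order.succ ν) (μ : Cardinal.{0})
    (hμ : ℵ₀ ≤ μ) :
    ∃ (P : Type) (_ : Preorder P), Nonempty P ∧ ∀ p : P,
      p ∈ CardinalsPreserved.{0, 0} P ∧ (∀ ν : Cardinal.{0}, ν.IsRegular → p ∈ StaysRegular P ν) ∧
      p ∈ ForcesGCH P ∧
      p ∈ fnot (PolarizedRel P (Order.succ μ).ord.ToType (Order.succ (Order.succ μ)).ord.ToType
        μ.ord.ToType) := by
  have hK : #(Order.succ μ).ord.ToType = Order.succ μ := mk_ord_toType _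
  have hM : #(Order.succ (Order.succ μ)).ord.ToType = Order.succ (Order.succ μ) := mk_ord_toType _
  have hcc : ∀ (ι : Type) (f : ι → NC μ (Order.succ μ).ord.ToType
      (Order.succ (Order.succ μ)).ord.ToType), Order.succ (Order.succ μ) ≤ #ι →
      ∃ i j, i ≠ j ∧ ∃ r, r ≤ f i ∧ r ≤ f j := fun ι f hι =>
    cc hμ (Order.lt_succ μ) (hGCH μ hμ).le (pow_succ_le hGCH hμ le_rfl) hK.le ι f hι
  have hQ : #(NC μ (Order.succ μ).ord.ToType (Order.succ (Order.succ μ)).ord.ToType) ≤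
      Order.succ (Order.succ μ) :=
    mk_le hμ ((Order.le_succ μ).trans (Order.le_succ _)) (pow_succ_le hGCH hμ (Order.le_succ μ))
      (hK.le.trans (Order.le_succ _)) hM.le
  have hne : Nonempty (NC μ (Order.succ μ).ord.ToType (Order.succ (Order.succ μ)).ord.ToType) :=
    ⟨⟨∅, ∅, ∅, ∅, by simp, by simp, by simp, fun S hS => hS.elim, fun t ht => ht.elim⟩⟩
  refine ⟨NC μ (Order.succ μ).ord.ToType (Order.succ (Order.succ μ)).ord.ToType, inferInstance,
    hne, fun p => ⟨?_, ?_, ?_, ?_⟩⟩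
  · exact cardinalsPreserved hμ rfl (dirClosed hμ) hcc p
  · intro ν hν
    rcases le_or_gt ν (Order.succ μ) with h | h
    · exact staysRegular_proj hν
        (fun N D hN hd hdense q =>
          exists_forall_mem (hμ.trans (Order.le_succ μ)) (dirClosed hμ) (hN.trans_le h) D hd
            hdense q)
        id (fun a b h => h) (fun a q' h => ⟨q', h, le_rfl⟩) (fun q' => ⟨q', le_rfl⟩) p
    · exact staysRegular_of_cc' hν (fun ι f hι => hcc ι f ((Order.succ_le_of_lt h).trans hι)) p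
  · exact forcesGCH hμ hGCH (dirClosed hμ) hcc hQ p
  · exact not_polarized hμ (by rw [hK]; exact Order.lt_succ μ) _ (mk_ord_toType μ) p

end

end Pool.Agent.W931.Neg
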